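import Pool.Agent.LAPG.Expl

/-!
# Non-solvable varieties of Lie algebras of almost polynomial growth are verbally prime
-/

set_option autoImplicit false

open LieAlgebra Pool.Agent.LAPG

universe u

/-- Let `2 ≠ 0` in the field `F` and let `L` be the free Lie algebra on `ℕ`. A non-solvable
variety of almost polynomial growth is just non-solvable; just non-solvable varieties are verbally
prime, are generated by each of their non-solvable algebras and by every nonzero verbal ideal of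
their free algebra, meet pairwise in solvable varieties, and exist inside every non-solvable
variety; a single codimension `c_n < 3 ^ (n / 4)` makes a variety solvable, of derived length at
most `2 + log_2 (n / 4 + n % 4)`, rounded up. -/
theorem Pool.Agent.Results.MP_faf532_al.VerballyPrime.result (F : Type u) [Field F]
    (h2 : (2 : F) ≠ 0) :
    (∀ I : LieIdeal F (FreeLieAlgebra F ℕ), AlmostPoly I → ¬ Solv I → JustNonSolv I) ∧
    (∀ I : LieIdeal F (FreeLieAlgebra F ℕ), JustNonSolv I →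
      (∀ J K : LieIdeal F (FreeLieAlgebra F ℕ), IsVerbal J → IsVerbal K → ⁅J, K⁆ ≤ I →
        J ≤ I ∨ K ≤ I) ∧
      (∀ (A : Type u) [LieRing A] [LieAlgebra F A],
        (∀ φ : FreeLieAlgebra F ℕ →ₗ⁅F⁆ A, ∀ f ∈ I, φ f = 0) →
        (¬ ∃ d : ℕ, derivedSeries F A d = ⊥) →
        ∀ f : FreeLieAlgebra F ℕ, (∀ φ : FreeLieAlgebra F ℕ →ₗ⁅F⁆ A, φ f = 0) → f ∈ I) ∧
      (∀ J : LieIdeal F (FreeLieAlgebra F ℕ), IsVerbal J → I < J →
        ∀ f : FreeLieAlgebra F ℕ,
          (∀ φ : FreeLieAlgebra F ℕ →ₗ⁅F⁆ FreeLieAlgebra F ℕ,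
            (∀ i : ℕ, φ (FreeLieAlgebra.of F i) ∈ J) → φ f ∈ I) → f ∈ I) ∧
      (∀ I' : LieIdeal F (FreeLieAlgebra F ℕ), JustNonSolv I' → I' ≠ I → Solv (I ⊔ I'))) ∧
    (∀ I : LieIdeal F (FreeLieAlgebra F ℕ), IsVerbal I → ¬ Solv I →
      ∃ M : LieIdeal F (FreeLieAlgebra F ℕ), I ≤ M ∧ JustNonSolv M) ∧
    (∀ I : LieIdeal F (FreeLieAlgebra F ℕ), IsVerbal I → ∀ n : ℕ, 1 ≤ n →
      codim I n < ((3 ^ (n / 4) : ℕ) : Cardinal.{u}) →
        derivedSeries F (FreeLieAlgebra F ℕ) (2 + Nat.clog 2 (n / 4 + n % 4)) ≤ I) := by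
  refine ⟨fun I h hns => just_of_almost h2 h hns, fun I hI => ⟨fun J K hJ hK h =>
    just_prime hI hJ hK h, fun A _ _ h hns f hf => just_gen_alg hI A h hns f hf,
    fun J hJ hlt f hf => just_gen_ideal hI hJ hlt f hf, fun I' hI' hne => ?_⟩,
    fun I hI hns => exists_just hI hns, fun I hI n hn h => solv_of_codim' h2 hI n hn h⟩
  by_cases h : I' ≤ I
  · exact absurd (hI'.2.2 I hI.1 (lt_of_le_of_ne h hne)) hI.2.1
  · exact just_sup hI hI'.1 h
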